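import Mathlib

/-!
# Etale motivic cohomology of proper regular arithmetic schemes: definitions
-/

set_option autoImplicit false

namespace Pool.Agent.Y156.E

/-- Data: the proper, regular, connected arithmetic schemes `X : V`, their Krull dimensions, the etale
motivic cohomology groups `H X i n = H^i(X_et, ℤ(n))`, and four relations between schemes. -/
structure EtaleData where
  /-- the proper, regular, connected arithmetic schemes -/
  V : Type
  /-- the Krull dimension -/
  dim : V → ℕ
  /-- the groups `H^i(X_et, ℤ(n))` -/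
  H : V → ℤ → ℤ → Type
  [group : ∀ X i n, AddCommGroup (H X i n)]
  /-- there is a projective surjective morphism from the first to the second scheme -/
  Dominates : V → V → Prop
  /-- the first scheme is projective over `ℤ` and there is a dominant rational map from the first to the
  second scheme -/
  RatDominates : V → V → Prop
  /-- the first scheme is the projective bundle of a vector bundle of rank `k + 1` on the second -/
  IsBundle : V → V → ℕ → Prop
  /-- `IsBlowUp B X Z c`: the scheme `B` is the blow-up of `X` in a regular connected closed subscheme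
  `Z` of codimension `c` -/
  IsBlowUp : V → V → V → ℕ → Prop

attribute [instance] EtaleData.group

variable (T : EtaleData)

/-- Transfer. For a projective surjective morphism `f : X' → X` of relative dimension `e`, with a
relatively ample line bundle `L`, of degree `N` on the generic fibre, the composition of
`x ↦ c_1(L)^e f^* (x)` and `f_*` is the multiplication by `N`, in the weights `n ≥ dim X`. -/
structure HasTransfer : Prop where
  dim_le : ∀ {X' X : T.V}, T.Dominates X' X → T.dim X ≤ T.dim X'
  transfer : ∀ {X' X : T.V}, T.Dominates X' X → ∃ N : ℕ, 0 < N ∧ ∀ i n : ℤ, (T.dim X : ℤ) ≤ n →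
    ∃ (a : T.H X i n →+
        T.H X' (i + 2 * ((T.dim X' : ℤ) - T.dim X)) (n + ((T.dim X' : ℤ) - T.dim X)))
      (b : T.H X' (i + 2 * ((T.dim X' : ℤ) - T.dim X)) (n + ((T.dim X' : ℤ) - T.dim X)) →+
        T.H X i n), ∀ x, b (a x) = N • x

/-- Projective bundles: they exist in all relative dimensions, and their cohomology is given, in the
weights `n ≥ dim P`, by `H^i(P, ℤ(n)) = ⨁ H^(i - 2 j)(X, ℤ(n - j))`, `0 ≤ j ≤ k`. -/
structure HasBundles : Prop where
  exists_bundle : ∀ (X : T.V) (k : ℕ), ∃ P, T.IsBundle P X k
  dim_bundle : ∀ {P X : T.V} {k : ℕ}, T.IsBundle P X k → T.dim P = T.dim X + k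
  formula : ∀ {P X : T.V} {k : ℕ}, T.IsBundle P X k → ∀ i n : ℤ, (T.dim P : ℤ) ≤ n →
    Nonempty (T.H P i n ≃+ (∀ j : Fin (k + 1), T.H X (i - 2 * (j : ℕ)) (n - (j : ℕ))))

/-- Blow-ups in regular centres: in the weights `n ≥ dim X`,
`H^i(B, ℤ(n)) = H^i(X, ℤ(n)) ⊕ ⨁ H^(i - 2 j)(Z, ℤ(n - j))`, `1 ≤ j ≤ c - 1`. -/
structure HasBlowUps : Prop where
  dim_blowUp : ∀ {B X Z : T.V} {c : ℕ}, T.IsBlowUp B X Z c → T.dim B = T.dim X
  dim_center : ∀ {B X Z : T.V} {c : ℕ}, T.IsBlowUp B X Z c → T.dim Z + c = T.dim X
  formula : ∀ {B X Z : T.V} {c : ℕ}, T.IsBlowUp B X Z c → ∀ i n : ℤ, (T.dim X : ℤ) ≤ n →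
    Nonempty (T.H B i n ≃+
      T.H X i n × (∀ j : Fin (c - 1), T.H Z (i - 2 * ((j : ℕ) + 1)) (n - ((j : ℕ) + 1))))

/-- The first scheme is obtained from the second by finitely many blow-ups in regular centres. -/
def IteratedBlowUp : T.V → T.V → Prop :=
  Relation.ReflTransGen fun B X => ∃ (Z : T.V) (c : ℕ), T.IsBlowUp B X Z c

/-- Elimination of indeterminacies in dimension at most three (Cossart and Piltant): if there is a
dominant rational map from `X'` to `X`, where `X'` is projective and `dim X' ≤ 3`, then an iterated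
blow-up of `X'` in regular centres has a projective surjective morphism to `X`. -/
structure HasResolution : Prop where
  resolve : ∀ {X' X : T.V}, T.RatDominates X' X → T.dim X' ≤ 3 →
    ∃ Z, IteratedBlowUp T Z X' ∧ T.Dominates Z X

/-- In the weights `n ≥ dim X`: the subgroups of the elements killed by a positive integer are finite
(finiteness of etale cohomology with the coefficients `ℤ/N(n)`), the groups of negative degree are
uniquely divisible (they are the rational motivic cohomology groups), the groups of degree `2 n + 1`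
are finite if `n > dim X`, and for schemes of dimension at most one the groups of degree at most `2 n`
are finitely generated (Dirichlet, Quillen, Borel, Soule, Harder, Voevodsky, Rost). -/
structure HasFiniteness : Prop where
  torsion : ∀ (X : T.V) (i n : ℤ) (N : ℕ), (T.dim X : ℤ) ≤ n → 0 < N →
    {x : T.H X i n | N • x = 0}.Finite
  divisible : ∀ (X : T.V) (i n : ℤ) (N : ℕ), (T.dim X : ℤ) ≤ n → i < 0 → 0 < N →
    Function.Bijective fun x : T.H X i n => N • x
  top : ∀ (X : T.V) (n : ℤ), (T.dim X : ℤ) < n → Finite (T.H X (2 * n + 1) n)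
  curves : ∀ (X : T.V) (i n : ℤ), T.dim X ≤ 1 → (T.dim X : ℤ) ≤ n → i ≤ 2 * n →
    AddGroup.FG (T.H X i n)

/-- The properties that are used. -/
structure IsEtale : Prop where
  transfer : HasTransfer T
  bundles : HasBundles T
  blowUps : HasBlowUps T
  resolution : HasResolution T
  finiteness : HasFiniteness T

variable {T}

/-- The groups `H^i(X_et, ℤ(dim X))` are finitely generated for `0 ≤ i ≤ 2 dim X`. -/
def FiniteInRange (X : T.V) : Prop :=
  ∀ i : ℤ, 0 ≤ i → i ≤ 2 * T.dim X → AddGroup.FG (T.H X i (T.dim X))

/-- The groups `H^i(X_et, ℤ(n))` are finitely generated for all `i ≤ 2 n`. -/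
def FiniteInWeight (X : T.V) (n : ℤ) : Prop :=
  ∀ i : ℤ, i ≤ 2 * n → AddGroup.FG (T.H X i n)

/-- For all `n ≥ dim X`, the groups `H^i(X_et, ℤ(n))` are finitely generated for all `i ≤ 2 n` and zero
for all `i < 0`. -/
def FiniteAndZero (X : T.V) : Prop :=
  ∀ n : ℤ, (T.dim X : ℤ) ≤ n → FiniteInWeight X n ∧ ∀ i : ℤ, i < 0 → ∀ x : T.H X i n, x = 0

/-- There is a projective surjective morphism from `X'` to `X`, or `X'` is projective of dimension at most
three and there is a dominant rational map from `X'` to `X`. -/
def Covers (X' X : T.V) : Prop := T.Dominates X' X ∨ (T.RatDominates X' X ∧ T.dim X' ≤ 3)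

/-- `H^i(X_et, ℤ^c(n)) = H^(2 d + i)(X_et, ℤ(d - n))`, `d = dim X`. -/
abbrev Hc (X : T.V) (i n : ℤ) : Type := T.H X (2 * T.dim X + i) (T.dim X - n)

/-- Every scheme `X` admits a projective surjective morphism from a scheme with the property `S`. -/
def Dominating (S : T.V → Prop) : Prop := ∀ X : T.V, ∃ X', S X' ∧ T.Dominates X' X

end Pool.Agent.Y156.E
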