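import Mathlib
import Pool.Agent.Y156.E.Defs

/-!
# Etale cycle complexes of all arithmetic schemes: definitions
-/

set_option autoImplicit false

namespace Pool.Agent.Y156.E

/-- Data: all arithmetic schemes, among them the proper regular connected ones, with the groups
`Hw X i n = H^i(X_et, ℤ^c(n))`. -/
structure AllData extends EtaleData where
  /-- the arithmetic schemes -/
  W : Type
  /-- the proper regular connected schemes as arithmetic schemes -/
  incl : V → W
  /-- the dimension -/
  dimw : W → ℕ
  /-- the pair of the dimension and of the number of the irreducible components of this dimension -/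
  rank : W → ℕ ×ₗ ℕ
  /-- the groups `H^i(X_et, ℤ^c(n))` -/
  Hw : W → ℤ → ℤ → Type
  [groupw : ∀ X i n, AddCommGroup (Hw X i n)]
  /-- `IsTriple Z X U`: the scheme `Z` is a closed subscheme of `X` with the open complement `U` -/
  IsTriple : W → W → W → Prop

attribute [instance] AllData.groupw

/-- The known properties, for `n ≤ 0`. `iso`: the groups of proper regular connected schemes (`Hc`).
`exact_mid` and `exact_open`: the localization sequence. `torsion`: finiteness of the subgroups of the
elements killed by a positive integer. `alteration` (de Jong): every nonempty arithmetic scheme `X` has a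
nonempty open subscheme `U` with a finite flat morphism `U' → U` of constant degree `N` from an open
subscheme `U'` of a proper regular connected scheme `X'`, such that the complement `Z` of `U` has smaller
dimension or fewer components of the same dimension, and the complement `Z'` of `U'` in `X'` has smaller
dimension; `b ∘ a` is the composition of inverse and direct image. `bounded`: for proper regular
connected schemes and `n < 0`, finite generation for `i ≤ -2 n + 1` implies it for all `i`. -/
structure IsAll (T : AllData) : Prop where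
  etale : IsEtale T.toEtaleData
  dimw_incl : ∀ X : T.V, T.dimw (T.incl X) = T.dim X
  iso : ∀ (X : T.V) (i n : ℤ), n ≤ 0 →
    Nonempty (T.Hw (T.incl X) i n ≃+ Hc (T := T.toEtaleData) X i n)
  exact_mid : ∀ {Z X U : T.W}, T.IsTriple Z X U → ∀ i n : ℤ, n ≤ 0 →
    ∃ (f : T.Hw Z i n →+ T.Hw X i n) (g : T.Hw X i n →+ T.Hw U i n), ∀ x, g x = 0 ↔ ∃ z, f z = x
  exact_open : ∀ {Z X U : T.W}, T.IsTriple Z X U → ∀ i n : ℤ, n ≤ 0 →
    ∃ (g : T.Hw X i n →+ T.Hw U i n) (h : T.Hw U i n →+ T.Hw Z (i + 1) n),
      ∀ u, h u = 0 ↔ ∃ x, g x = u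
  torsion : ∀ (X : T.W) (i n : ℤ) (N : ℕ), n ≤ 0 → 0 < N → {x : T.Hw X i n | N • x = 0}.Finite
  alteration : ∀ X : T.W, (∀ i n : ℤ, n ≤ 0 → Subsingleton (T.Hw X i n)) ∨
    ∃ (Z U Z' U' : T.W) (X' : T.V), T.IsTriple Z X U ∧ T.IsTriple Z' (T.incl X') U' ∧
      T.rank Z < T.rank X ∧ T.rank Z' < T.rank X ∧ T.dimw Z ≤ T.dimw X ∧ T.dimw Z' ≤ T.dimw X ∧
      T.dim X' ≤ T.dimw X ∧ ∃ N : ℕ, 0 < N ∧ ∀ i n : ℤ, n ≤ 0 →
        ∃ (a : T.Hw U i n →+ T.Hw U' i n) (b : T.Hw U' i n →+ T.Hw U i n), ∀ x, b (a x) = N • x
  bounded : ∀ (X : T.V) (n : ℤ), n < 0 →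
    (∀ i : ℤ, i ≤ -2 * n + 1 → AddGroup.FG (Hc (T := T.toEtaleData) X i n)) →
      ∀ i : ℤ, AddGroup.FG (Hc (T := T.toEtaleData) X i n)

end Pool.Agent.Y156.E
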