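import Mathlib
import Pool.Agent.Y156.E.Defs

/-!
# Etale motivic cohomology of proper regular arithmetic schemes
-/

set_option autoImplicit false
set_option linter.unusedSectionVars false

namespace Pool.Agent.Y156.E

section groups

theorem fg_iff_noetherian (G : Type) [AddCommGroup G] : AddGroup.FG G ↔ IsNoetherian ℤ G := by
  rw [← Module.Finite.iff_addGroup_fg]
  exact ⟨fun h => inferInstance, fun h => inferInstance⟩

theorem fg_of_equiv {G G' : Type} [AddCommGroup G] [AddCommGroup G'] (e : G ≃+ G')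
    (h : AddGroup.FG G') : AddGroup.FG G := by
  rw [fg_iff_noetherian] at h ⊢
  exact isNoetherian_of_linearEquiv e.symm.toIntLinearEquiv

theorem fg_pi_iff {ι : Type} [Finite ι] {G : ι → Type} [∀ i, AddCommGroup (G i)] :
    AddGroup.FG (∀ i, G i) ↔ ∀ i, AddGroup.FG (G i) := by
  classical
  simp only [fg_iff_noetherian]
  constructor
  · intro h i
    exact isNoetherian_of_surjective (LinearMap.proj i : (∀ i, G i) →ₗ[ℤ] G i)
      (LinearMap.range_eq_top.2 (Function.surjective_eval i))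
  · intro h
    exact isNoetherian_pi

theorem fg_prod_iff {G G' : Type} [AddCommGroup G] [AddCommGroup G'] :
    AddGroup.FG (G × G') ↔ AddGroup.FG G ∧ AddGroup.FG G' := by
  simp only [fg_iff_noetherian]
  constructor
  · intro h
    exact ⟨isNoetherian_of_surjective (LinearMap.fst ℤ G G')
        (LinearMap.range_eq_top.2 Prod.fst_surjective),
      isNoetherian_of_surjective (LinearMap.snd ℤ G G')
        (LinearMap.range_eq_top.2 Prod.snd_surjective)⟩
  · rintro ⟨h, h'⟩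
    exact isNoetherian_prod

theorem fg_of_transfer {G G' : Type} [AddCommGroup G] [AddCommGroup G'] {N : ℕ} (a : G →+ G')
    (b : G' →+ G) (hab : ∀ x, b (a x) = N • x) (hN : {x : G | N • x = 0}.Finite)
    (h : AddGroup.FG G') : AddGroup.FG G := by
  rw [fg_iff_noetherian] at h ⊢
  have hker : Finite (LinearMap.ker a.toIntLinearMap) := by
    refine (hN.subset ?_ : ((LinearMap.ker a.toIntLinearMap : Submodule ℤ G) : Set G).Finite)
    intro x hx
    have h1 : a x = 0 := hx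
    change N • x = 0
    rw [← hab, h1, map_zero]
  have : IsNoetherian ℤ (LinearMap.ker a.toIntLinearMap) := isNoetherian_of_finite ℤ _
  exact isNoetherian_of_range_eq_ker (LinearMap.ker a.toIntLinearMap).subtype a.toIntLinearMap
    (Submodule.range_subtype _)

theorem subsingleton_of_divisible {G : Type} [AddCommGroup G] (h : AddGroup.FG G)
    (hdiv : ∀ N : ℕ, 0 < N → Function.Bijective fun x : G => N • x) (x : G) : x = 0 := by
  rw [fg_iff_noetherian] at h
  have hle : (⊤ : Submodule ℤ G) ≤ Ideal.span {(2 : ℤ)} • (⊤ : Submodule ℤ G) := by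
    intro y _
    obtain ⟨z, hz⟩ := (hdiv 2 (by norm_num)).2 y
    have h1 : y = (2 : ℤ) • z := by
      rw [← hz]
      change 2 • z = (2 : ℤ) • z
      rw [ofNat_zsmul]
    rw [h1]
    exact Submodule.smul_mem_smul (Ideal.mem_span_singleton_self _) trivial
  obtain ⟨r, hr1, hr2⟩ := Submodule.exists_sub_one_mem_and_smul_eq_zero_of_fg_of_le_smul
    (Ideal.span {(2 : ℤ)}) (⊤ : Submodule ℤ G) (IsNoetherian.noetherian _) hle
  have hr0 : r ≠ 0 := by
    rintro rfl
    rw [zero_sub, Ideal.neg_mem_iff, Ideal.mem_span_singleton] at hr1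
    norm_num at hr1
  have h1 : r.natAbs • x = 0 := by
    have h2 := hr2 x trivial
    rcases Int.natAbs_eq r with h3 | h3
    · rw [h3, natCast_zsmul] at h2
      exact h2
    · rw [h3, neg_smul, neg_eq_zero, natCast_zsmul] at h2
      exact h2
  refine (hdiv r.natAbs (Int.natAbs_pos.2 hr0)).1 ?_
  change r.natAbs • x = r.natAbs • 0
  rw [h1, smul_zero]

end groups

variable {T : EtaleData} (hT : IsEtale T)

include hT

/-- Descent along projective surjective morphisms, degree by degree. -/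
theorem fg_of_dominates {X' X : T.V} (h : T.Dominates X' X) {i n : ℤ} (hn : (T.dim X : ℤ) ≤ n)
    (hfg : AddGroup.FG (T.H X' (i + 2 * ((T.dim X' : ℤ) - T.dim X))
      (n + ((T.dim X' : ℤ) - T.dim X)))) : AddGroup.FG (T.H X i n) := by
  obtain ⟨N, hN, hab⟩ := hT.transfer.transfer h
  obtain ⟨a, b, hab⟩ := hab i n hn
  exact fg_of_transfer a b hab (hT.finiteness.torsion X i n N hn hN) hfg

theorem bundle_iff {P X : T.V} {k : ℕ} (h : T.IsBundle P X k) (i n : ℤ) (hn : (T.dim P : ℤ) ≤ n) :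
    AddGroup.FG (T.H P i n) ↔
      ∀ j : Fin (k + 1), AddGroup.FG (T.H X (i - 2 * (j : ℕ)) (n - (j : ℕ))) := by
  obtain ⟨e⟩ := hT.bundles.formula h i n hn
  rw [← fg_pi_iff]
  exact ⟨fg_of_equiv e.symm, fg_of_equiv e⟩

theorem blowUp_iff {B X Z : T.V} {c : ℕ} (h : T.IsBlowUp B X Z c) (i n : ℤ)
    (hn : (T.dim X : ℤ) ≤ n) :
    AddGroup.FG (T.H B i n) ↔ AddGroup.FG (T.H X i n) ∧
      ∀ j : Fin (c - 1), AddGroup.FG (T.H Z (i - 2 * ((j : ℕ) + 1)) (n - ((j : ℕ) + 1))) := by
  obtain ⟨e⟩ := hT.blowUps.formula h i n hn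
  rw [← fg_pi_iff, ← fg_prod_iff]
  exact ⟨fg_of_equiv e.symm, fg_of_equiv e⟩

/-- Invariance under blow-ups in dimension at most three. -/
theorem blowUp_iff_of_le {B X Z : T.V} {c : ℕ} (h : T.IsBlowUp B X Z c) (hX : T.dim X ≤ 3) (i n : ℤ)
    (hn : (T.dim X : ℤ) ≤ n) (hi : i ≤ 2 * n) :
    AddGroup.FG (T.H B i n) ↔ AddGroup.FG (T.H X i n) := by
  rw [blowUp_iff hT h i n hn]
  refine ⟨fun h => h.1, fun hfg => ⟨hfg, fun j => ?_⟩⟩
  have h1 := hT.blowUps.dim_center h
  have h2 := j.2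
  exact hT.finiteness.curves Z _ _ (by omega) (by omega) (by omega)

theorem iterated_iff {B X : T.V} (h : IteratedBlowUp T B X) (hX : T.dim X ≤ 3) :
    T.dim B = T.dim X ∧ ∀ i n : ℤ, (T.dim X : ℤ) ≤ n → i ≤ 2 * n →
      (AddGroup.FG (T.H B i n) ↔ AddGroup.FG (T.H X i n)) := by
  induction h using Relation.ReflTransGen.head_induction_on with
  | refl => exact ⟨rfl, fun i n _ _ => Iff.rfl⟩
  | head h' _ ih =>
    obtain ⟨Z, c, hb⟩ := h'
    have h1 := hT.blowUps.dim_blowUp hb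
    refine ⟨h1.trans ih.1, fun i n hn hi => ?_⟩
    rw [← ih.2 i n hn hi]
    exact blowUp_iff_of_le hT hb (by rw [ih.1]; exact hX) i n (by rw [ih.1]; exact hn) hi

/-- Descent along dominant rational maps in dimension at most three. -/
theorem fg_of_ratDominates {X' X : T.V} (h : T.RatDominates X' X) (hX' : T.dim X' ≤ 3) {i n : ℤ}
    (hn : (T.dim X : ℤ) ≤ n) (hi : i ≤ 2 * n)
    (hfg : AddGroup.FG (T.H X' (i + 2 * ((T.dim X' : ℤ) - T.dim X))
      (n + ((T.dim X' : ℤ) - T.dim X)))) : AddGroup.FG (T.H X i n) := by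
  obtain ⟨Z, hZ, hd⟩ := hT.resolution.resolve h hX'
  obtain ⟨h1, h2⟩ := iterated_iff hT hZ hX'
  refine fg_of_dominates hT hd hn ?_
  rw [h1]
  exact (h2 _ _ (by linarith) (by linarith)).2 hfg

/-- Schemes of dimension at most one. -/
theorem finiteInWeight_curve {Y : T.V} (hY : T.dim Y ≤ 1) {n : ℤ} (hn : (T.dim Y : ℤ) ≤ n) :
    FiniteInWeight Y n := fun i hi => hT.finiteness.curves Y i n hY hn hi

/-- Projective bundles. -/
theorem fg_bundle {P Y : T.V} {k : ℕ} (h : T.IsBundle P Y k)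
    (hY : ∀ n : ℤ, (T.dim Y : ℤ) ≤ n → FiniteInWeight Y n) (i n : ℤ)
    (hn : (T.dim P : ℤ) ≤ n) (hi : i ≤ 2 * n) : AddGroup.FG (T.H P i n) := by
  rw [bundle_iff hT h i n hn]
  intro j
  have h1 := hT.bundles.dim_bundle h
  have h2 := j.2
  exact hY _ (by omega) _ (by omega)

theorem vanishing {X : T.V} {n i : ℤ} (hn : (T.dim X : ℤ) ≤ n) (hi : i < 0)
    (h : AddGroup.FG (T.H X i n)) (x : T.H X i n) : x = 0 :=
  subsingleton_of_divisible h (fun N hN => hT.finiteness.divisible X i n N hn hi hN) x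

theorem finiteAndZero_of {X : T.V} (h : ∀ n : ℤ, (T.dim X : ℤ) ≤ n → FiniteInWeight X n) :
    FiniteAndZero X := by
  intro n hn
  refine ⟨h n hn, fun i hi x => vanishing hT hn hi (h n hn i ?_) x⟩
  omega

/-- The reduction for a fixed `t` and a fixed `c = 2 n - i`. -/
theorem reduction {S : T.V → Prop} (hS : Dominating S) (D t : ℕ) (c : ℤ)
    (hfg : ∀ X, S X → D ≤ T.dim X → c ≤ 2 * (T.dim X + t) →
      AddGroup.FG (T.H X (2 * (T.dim X + t) - c) (T.dim X + t)))
    (X : T.V) (n : ℤ) (hn : (T.dim X : ℤ) + t ≤ n) : AddGroup.FG (T.H X (2 * n - c) n) := by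
  obtain ⟨j, hj⟩ : ∃ j : ℕ, (D : ℤ) ≤ j ∧ c ≤ 2 * j := ⟨D + c.natAbs, by omega, by omega⟩
  obtain ⟨k, hk⟩ : ∃ k : ℕ, (k : ℤ) = n - T.dim X - t + j := ⟨(n - T.dim X - t + j).toNat, by omega⟩
  obtain ⟨P, hP⟩ := hT.bundles.exists_bundle X k
  have hdim := hT.bundles.dim_bundle hP
  obtain ⟨X', hX', hdom⟩ := hS P
  have hle := hT.transfer.dim_le hdom
  have h0 := hfg X' hX' (by omega) (by omega)
  have h1 : AddGroup.FG (T.H P (2 * (T.dim P + t) - c) (T.dim P + t)) := by
    refine fg_of_dominates hT hdom (by omega) ?_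
    have e1 : 2 * ((T.dim P : ℤ) + t) - c + 2 * ((T.dim X' : ℤ) - T.dim P) =
        2 * (T.dim X' + t) - c := by ring
    have e2 : (T.dim P : ℤ) + t + ((T.dim X' : ℤ) - T.dim P) = T.dim X' + t := by ring
    rw [e1, e2]
    exact h0
  have h2 := (bundle_iff hT hP _ _ (by omega)).1 h1 ⟨j, by omega⟩
  have e3 : 2 * ((T.dim P : ℤ) + t) - c - 2 * (j : ℤ) = 2 * n - c := by
    rw [hdim]
    push_cast
    omega
  have e4 : (T.dim P : ℤ) + t - (j : ℤ) = n := by
    rw [hdim]
    push_cast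
    omega
  change AddGroup.FG (T.H X (2 * ((T.dim P : ℤ) + t) - c - 2 * (j : ℤ))
    ((T.dim P : ℤ) + t - (j : ℤ))) at h2
  rw [e3, e4] at h2
  exact h2

/-- Finite generation in the degrees between `0` and `2 dim X` in the weight `dim X`, for the schemes of
a dominating class, of dimension at least `D`, implies everything in the weights at least `dim X`. -/
theorem finiteAndZero_of_range {S : T.V → Prop} (hS : Dominating S) (D : ℕ)
    (hfg : ∀ X, S X → D ≤ T.dim X → FiniteInRange X) (X : T.V) : FiniteAndZero X := by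
  refine finiteAndZero_of hT fun n hn i hi => ?_
  have h1 := reduction hT hS D 0 (2 * n - i) (fun X' hX' hD hc => by
    have h2 := hfg X' hX' hD (2 * (T.dim X' + (0 : ℕ)) - (2 * n - i)) (by linarith)
      (by push_cast; linarith)
    have e : (T.dim X' : ℤ) + ((0 : ℕ) : ℤ) = T.dim X' := by simp
    rw [e] at h2 ⊢
    exact h2) X n (by simpa using hn)
  have e : 2 * n - (2 * n - i) = i := by ring
  rw [e] at h1
  exact h1

/-- Descent along covers. -/
theorem fg_of_covers {X' X : T.V} (h : Covers X' X) {i n : ℤ} (hn : (T.dim X : ℤ) ≤ n)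
    (hi : i ≤ 2 * n) (hfg : AddGroup.FG (T.H X' (i + 2 * ((T.dim X' : ℤ) - T.dim X))
      (n + ((T.dim X' : ℤ) - T.dim X)))) : AddGroup.FG (T.H X i n) := by
  rcases h with h | ⟨h, hd⟩
  · exact fg_of_dominates hT h hn hfg
  · exact fg_of_ratDominates hT h hd hn hi hfg

/-- The base is of dimension at most one or has the property. -/
theorem finiteInWeight_base {Y : T.V} (hY : T.dim Y ≤ 1 ∨ FiniteAndZero Y) (n : ℤ)
    (hn : (T.dim Y : ℤ) ≤ n) : FiniteInWeight Y n := by
  rcases hY with hY | hY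
  · exact finiteInWeight_curve hT hY hn
  · exact (hY n hn).1

theorem finiteAndZero_of_covers {P Y X : T.V} {k : ℕ} (h : T.IsBundle P Y k)
    (hY : T.dim Y ≤ 1 ∨ FiniteAndZero Y) (hX : Covers P X) : FiniteAndZero X := by
  refine finiteAndZero_of hT fun n hn i hi => ?_
  exact fg_of_covers hT hX hn hi
    (fg_bundle hT h (finiteInWeight_base hT hY) _ _ (by linarith) (by linarith))

/-- Descent and bundles in the dual weight `w`. -/
theorem fgc_of_bundle {P Y X : T.V} {k : ℕ} (h : T.IsBundle P Y k)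
    (hY : T.dim Y ≤ 1 ∨ ∀ n i : ℤ, n < 0 → i ≤ -2 * n + 1 → AddGroup.FG (T.H Y (2 * T.dim Y + i)
      (T.dim Y - n))) (hX : Covers P X) {n i : ℤ} (hn : n < 0) (hi : i ≤ -2 * n) :
    AddGroup.FG (T.H X (2 * T.dim X + i) (T.dim X - n)) := by
  refine fg_of_covers hT hX (by linarith) (by linarith) ?_
  have h1 := hT.bundles.dim_bundle h
  rw [bundle_iff hT h _ _ (by linarith)]
  intro j
  have h2 := j.2
  rcases hY with hY | hY
  · exact finiteInWeight_curve hT hY (by omega) _ (by omega)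
  · have h3 := hY (n - k + (j : ℕ)) (i + 2 * k - 2 * (j : ℕ)) (by omega) (by omega)
    have e1 : 2 * (T.dim X : ℤ) + i + 2 * ((T.dim P : ℤ) - T.dim X) - 2 * (j : ℕ) =
        2 * T.dim Y + (i + 2 * k - 2 * (j : ℕ)) := by
      rw [h1]
      push_cast
      ring
    have e2 : (T.dim X : ℤ) - n + ((T.dim P : ℤ) - T.dim X) - (j : ℕ) =
        T.dim Y - (n - k + (j : ℕ)) := by
      rw [h1]
      push_cast
      ring
    rw [e1, e2]
    exact h3

/-! ### The dual weights -/

theorem fgc_of_covers {X' X : T.V} (h : Covers X' X) {i n : ℤ} (hn : n ≤ 0) (hi : i ≤ -2 * n)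
    (hfg : AddGroup.FG (Hc X' i n)) : AddGroup.FG (Hc X i n) := by
  refine fg_of_covers hT h (by linarith) (by linarith) ?_
  have e1 : 2 * (T.dim X : ℤ) + i + 2 * ((T.dim X' : ℤ) - T.dim X) = 2 * T.dim X' + i := by ring
  have e2 : (T.dim X : ℤ) - n + ((T.dim X' : ℤ) - T.dim X) = T.dim X' - n := by ring
  rw [e1, e2]
  exact hfg

theorem fgc_top (X : T.V) {n : ℤ} (hn : n < 0) : Finite (Hc X (-2 * n + 1) n) := by
  have h := hT.finiteness.top X (T.dim X - n) (by linarith)
  have e : 2 * ((T.dim X : ℤ) - n) + 1 = 2 * T.dim X + (-2 * n + 1) := by ring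
  rw [e] at h
  exact h

theorem fg_of_finite {G : Type} [AddCommGroup G] (h : Finite G) : AddGroup.FG G := by
  rw [fg_iff_noetherian]
  exact isNoetherian_of_finite ℤ G

theorem htop (X : T.V) (n : ℤ) (hn : n < 0) (h : ∀ i : ℤ, i ≤ -2 * n → AddGroup.FG (Hc X i n))
    (i : ℤ) (hi : i ≤ -2 * n + 1) : AddGroup.FG (Hc X i n) := by
  rcases hi.lt_or_eq with h1 | rfl
  · exact h i (by omega)
  · exact fg_of_finite hT (fgc_top hT X hn)

/-- The reduction to one weight, for a fixed value `m` of `i + 2 n`. -/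
theorem reduction_c {S : T.V → Prop} (hS : Dominating S) (D : ℕ) {w : ℤ} (hw : w ≤ 0) (m : ℤ)
    (hfg : ∀ X, S X → D ≤ T.dim X → 0 ≤ 2 * T.dim X + (m - 2 * w) → AddGroup.FG (Hc X (m - 2 * w) w))
    (X : T.V) (n : ℤ) (hn : n ≤ w) : AddGroup.FG (Hc X (m - 2 * n) n) := by
  obtain ⟨t, ht⟩ : ∃ t : ℕ, (t : ℤ) = -w := ⟨(-w).toNat, by omega⟩
  have h1 := reduction hT hS D t (-m) (fun X' hX' hD hc => by
    have h2 := hfg X' hX' hD (by rw [ht] at hc; linarith)
    have e1 : 2 * ((T.dim X' : ℤ) + t) - -m = 2 * T.dim X' + (m - 2 * w) := by rw [ht]; ring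
    have e2 : (T.dim X' : ℤ) + t = T.dim X' - w := by rw [ht]; ring
    rw [e1, e2]
    exact h2) X (T.dim X - n) (by rw [ht]; linarith)
  have e1 : 2 * ((T.dim X : ℤ) - n) - -m = 2 * T.dim X + (m - 2 * n) := by ring
  rw [e1] at h1
  exact h1

/-- The reduction to one weight `w`. -/
theorem all_of_weight {S : T.V → Prop} (hS : Dominating S) (D : ℕ) {w : ℤ} (hw : w ≤ 0)
    (hfg : ∀ X, S X → D ≤ T.dim X → ∀ i : ℤ, -2 * T.dim X ≤ i → i ≤ -2 * w →
      AddGroup.FG (Hc X i w)) (X : T.V) (n : ℤ) (hn : n ≤ w) :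
    (∀ i : ℤ, i ≤ -2 * n → AddGroup.FG (Hc X i n)) ∧
      ∀ i : ℤ, i < -2 * T.dim X → ∀ x : Hc X i n, x = 0 := by
  have key : ∀ i : ℤ, i ≤ -2 * n → AddGroup.FG (Hc X i n) := by
    intro i hi
    have h1 := reduction_c hT hS D hw (i + 2 * n)
      (fun X' hX' hD h0 => hfg X' hX' hD _ (by linarith) (by linarith)) X n hn
    have e : i + 2 * n - 2 * n = i := by ring
    rw [e] at h1
    exact h1
  exact ⟨key, fun i hi x => vanishing hT (by linarith) (by linarith) (key i (by omega)) x⟩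

end Pool.Agent.Y156.E
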