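import Mathlib
import Pool.Agent.Y156.E.AllDefs
import Pool.Agent.Y156.E.Main

/-!
# Etale cycle complexes of all arithmetic schemes
-/

set_option autoImplicit false

namespace Pool.Agent.Y156.E

theorem fg_of_exact {A B C : Type} [AddCommGroup A] [AddCommGroup B] [AddCommGroup C]
    (f : A →+ B) (g : B →+ C) (h : ∀ x, g x = 0 → ∃ z, f z = x) (hA : AddGroup.FG A)
    (hC : AddGroup.FG C) : AddGroup.FG B := by
  rw [fg_iff_noetherian] at hA hC ⊢
  have h1 : IsNoetherian ℤ (LinearMap.ker g.toIntLinearMap) := by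
    refine isNoetherian_of_surjective
      (LinearMap.codRestrict (LinearMap.ker g.toIntLinearMap)
        (f.toIntLinearMap.comp (Submodule.subtype (Submodule.comap f.toIntLinearMap
          (LinearMap.ker g.toIntLinearMap)))) fun c => c.2) ?_
    rw [LinearMap.range_eq_top]
    rintro ⟨x, hx⟩
    obtain ⟨z, hz⟩ := h x hx
    refine ⟨⟨z, ?_⟩, Subtype.ext hz⟩
    change g (f z) = 0
    rw [hz]
    exact hx
  exact isNoetherian_of_range_eq_ker (LinearMap.ker g.toIntLinearMap).subtype g.toIntLinearMap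
    (Submodule.range_subtype _)

theorem fg_of_finite' {G : Type} [AddCommGroup G] (h : Finite G) : AddGroup.FG G := by
  rw [fg_iff_noetherian]
  exact isNoetherian_of_finite ℤ G

variable {T : AllData} (hT : IsAll T)

include hT

/-- From proper regular connected schemes of dimension at most `D` to all schemes of dimension at most `D`,
in a fixed weight. -/
theorem all_of_proper {n : ℤ} (hn : n ≤ 0) (D : ℕ)
    (h : ∀ X : T.V, T.dim X ≤ D → ∀ i : ℤ, AddGroup.FG (Hc (T := T.toEtaleData) X i n)) (X : T.W) :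
    T.dimw X ≤ D → ∀ i : ℤ, AddGroup.FG (T.Hw X i n) := by
  have key : ∀ r : ℕ ×ₗ ℕ, ∀ X : T.W, T.rank X = r → T.dimw X ≤ D →
      ∀ i : ℤ, AddGroup.FG (T.Hw X i n) := by
    intro r
    induction r using WellFoundedLT.induction with
    | ind r ih =>
      intro X hX hD i
      rcases hT.alteration X with h0 | ⟨Z, U, Z', U', X', h1, h2, h3, h4, h5, h6, h7, N, hN, hab⟩
      · have := h0 i n hn
        exact fg_of_finite' inferInstance
      · obtain ⟨a, b, hab⟩ := hab i n hn
        have hZ := ih (T.rank Z) (hX ▸ h3) Z rfl (h5.trans hD)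
        have hZ' := ih (T.rank Z') (hX ▸ h4) Z' rfl (h6.trans hD)
        have hU' : AddGroup.FG (T.Hw U' i n) := by
          obtain ⟨g, k, hk⟩ := hT.exact_open h2 i n hn
          obtain ⟨e⟩ := hT.iso X' i n hn
          exact fg_of_exact g k (fun u hu => (hk u).1 hu)
            (fg_of_equiv e (h X' (h7.trans hD) i)) (hZ' (i + 1))
        have hU : AddGroup.FG (T.Hw U i n) := fg_of_transfer a b hab (hT.torsion U i n N hn hN) hU'
        obtain ⟨f, g, hg⟩ := hT.exact_mid h1 i n hn
        exact fg_of_exact f g (fun x hx => (hg x).1 hx) (hZ i) hU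
  exact key _ X rfl

/-- All degrees from the degrees `i ≤ -2 n`, for proper regular connected schemes. -/
theorem proper_all {n : ℤ} (hn : n < 0) {X : T.V}
    (h : ∀ i : ℤ, i ≤ -2 * n → AddGroup.FG (Hc (T := T.toEtaleData) X i n)) (i : ℤ) :
    AddGroup.FG (Hc (T := T.toEtaleData) X i n) :=
  hT.bounded X n hn (htop hT.etale X n hn h) i

theorem proper_of_all {n : ℤ} (hn : n ≤ 0) {X : T.V} {i : ℤ}
    (h : AddGroup.FG (T.Hw (T.incl X) i n)) : AddGroup.FG (Hc (T := T.toEtaleData) X i n) := by
  obtain ⟨e⟩ := hT.iso X i n hn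
  exact fg_of_equiv e.symm h

/-- The reduction in a fixed weight and up to a fixed dimension. -/
theorem fixed_weight (D : ℕ) {n : ℤ} (hn : n < 0) {S : T.V → Prop}
    (hS : ∀ X : T.V, T.dim X ≤ D → ∃ X', S X' ∧ T.dim X' ≤ D ∧ Covers (T := T.toEtaleData) X' X) :
    (∀ X : T.W, T.dimw X ≤ D → ∀ i : ℤ, AddGroup.FG (T.Hw X i n)) ↔
      ∀ X : T.V, S X → T.dim X ≤ D → ∀ i : ℤ, i ≤ -2 * n →
        AddGroup.FG (Hc (T := T.toEtaleData) X i n) := by
  constructor
  · intro h X _ hX i _
    exact proper_of_all hT hn.le (h _ ((hT.dimw_incl X).trans_le hX) i)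
  · intro h X hX
    refine all_of_proper hT hn.le D (fun X hX => proper_all hT hn fun i hi => ?_) X hX
    obtain ⟨X', hSX', hX', hcov⟩ := hS X hX
    exact fgc_of_covers hT.etale hcov hn.le hi (h X' hSX' hX' i hi)

/-- The reduction to the weight `-1` and to bounded degrees. -/
theorem weight_minus_one {S : T.V → Prop} (hS : Dominating (T := T.toEtaleData) S) (D : ℕ) :
    (∀ (X : T.W) (n i : ℤ), n < 0 → AddGroup.FG (T.Hw X i n)) ↔
      ∀ X : T.V, S X → D ≤ T.dim X → ∀ i : ℤ, -2 * T.dim X ≤ i → i ≤ 2 →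
        AddGroup.FG (Hc (T := T.toEtaleData) X i (-1)) := by
  constructor
  · intro h X _ _ i _ _
    exact proper_of_all hT (by norm_num) (h _ _ i (by norm_num))
  · intro h X n i hn
    refine all_of_proper hT hn.le (T.dimw X) (fun X _ => proper_all hT hn fun i hi => ?_) X le_rfl i
    exact (all_of_weight hT.etale hS D (w := -1) (by norm_num) (fun X hX hD i h0 h1 =>
      h X hX hD i h0 (by omega)) X n (by omega)).1 i hi

end Pool.Agent.Y156.E
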